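import Pool.Agent.L5helper98.CG.Defs

/-!
# CG-POS: positive moments of the model chaos (job for helper98, MP_e22585_pr)
-/

set_option autoImplicit false

open MeasureTheory ProbabilityTheory Filter Topology Set
open scoped ENNReal

namespace Pool.Agent.L5helper72.CG

open Pool.Agent.L5helper98.CG

noncomputable section

/-! ### elementary inequalities -/

lemma one_add_rpow {q t : ℝ} (hq : 1 ≤ q) (ht : 0 ≤ t) (ht1 : t ≤ 1) :
    (1 + t) ^ q ≤ 1 + 2 ^ q * t := by
  have h := (convexOn_rpow hq).2 (Set.mem_Ici.2 (by norm_num : (0 : ℝ) ≤ 1))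
    (Set.mem_Ici.2 (by norm_num : (0 : ℝ) ≤ 2)) (by linarith : (0 : ℝ) ≤ 1 - t) ht (by ring)
  have h2 : (1 - t) • (1 : ℝ) + t • (2 : ℝ) = 1 + t := by simp; ring
  rw [h2] at h
  simp only [smul_eq_mul, Real.one_rpow, mul_one] at h
  nlinarith

lemma pow_aux {q : ℝ} (hq : 1 < q) {x y : ℝ} (hx : 0 ≤ x) (hxy : x ≤ y) :
    (x + y) ^ q ≤ y ^ q + 2 ^ q * (x * y ^ (q - 1)) := by
  rcases eq_or_lt_of_le (hx.trans hxy) with h0 | h0
  · have : x = 0 := le_antisymm (by linarith) hx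
    subst this
    simp [← h0, Real.zero_rpow (by linarith : q ≠ 0)]
  · have h1 := one_add_rpow hq.le (div_nonneg hx h0.le) ((div_le_one h0).2 hxy)
    have h2 : x + y = y * (1 + x / y) := by field_simp; ring
    rw [h2, Real.mul_rpow h0.le (by positivity)]
    have h3 : y ^ q = y ^ (q - 1) * y := by
      rw [← Real.rpow_add_one h0.ne' (q - 1)]; ring_nf
    have h4 := mul_le_mul_of_nonneg_left h1 (Real.rpow_nonneg h0.le q)
    refine h4.trans (le_of_eq ?_)
    have h5 : y ^ q * (x / y) = x * y ^ (q - 1) := by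
      rw [h3]; field_simp
    calc y ^ q * (1 + 2 ^ q * (x / y)) = y ^ q + 2 ^ q * (y ^ q * (x / y)) := by ring
      _ = _ := by rw [h5]

lemma pow_real {q : ℝ} (hq : 1 < q) {x y : ℝ} (hx : 0 ≤ x) (hy : 0 ≤ y) :
    (x + y) ^ q ≤ x ^ q + y ^ q + 2 ^ q * (x ^ (q - 1) * y + x * y ^ (q - 1)) := by
  have a1 : 0 ≤ x ^ q := Real.rpow_nonneg hx _
  have a2 : 0 ≤ y ^ q := Real.rpow_nonneg hy _
  have a3 : 0 ≤ x ^ (q - 1) := Real.rpow_nonneg hx _
  have a4 : 0 ≤ y ^ (q - 1) := Real.rpow_nonneg hy _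
  have a5 : (0 : ℝ) ≤ 2 ^ q := by positivity
  rcases le_total x y with h | h
  · have := pow_aux hq hx h
    have b : 0 ≤ 2 ^ q * (x ^ (q - 1) * y) := by positivity
    nlinarith
  · have := pow_aux hq hy h
    rw [add_comm y x] at this
    have b : 0 ≤ 2 ^ q * (x * y ^ (q - 1)) := by positivity
    nlinarith

lemma pow_enn {q : ℝ} (hq : 1 < q) (x y : ℝ≥0∞) :
    (x + y) ^ q ≤ x ^ q + y ^ q + 2 ^ q * (x ^ (q - 1) * y + x * y ^ (q - 1)) := by
  have hq0 : 0 < q := by linarith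
  by_cases hx : x = ∞
  · simp [hx, ENNReal.top_rpow_of_pos hq0]
  by_cases hy : y = ∞
  · simp [hy, ENNReal.top_rpow_of_pos hq0]
  lift x to NNReal using hx
  lift y to NNReal using hy
  have h := pow_real hq x.2 y.2
  have h' : ((x + y : NNReal)) ^ q ≤ x ^ q + y ^ q +
      2 ^ q * (x ^ (q - 1) * y + x * y ^ (q - 1)) := by
    rw [← NNReal.coe_le_coe]
    push_cast
    exact h
  have hq1 : 0 ≤ q - 1 := by linarith
  have := ENNReal.coe_le_coe.2 h'
  push_cast at this
  rw [ENNReal.coe_rpow_of_nonneg _ hq0.le] at this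
  simpa [ENNReal.coe_rpow_of_nonneg _ hq0.le, ENNReal.coe_rpow_of_nonneg _ hq1] using this

lemma sum_rpow_le {ι : Type*} (s : Finset ι) (z : ι → ℝ≥0∞) {N : ℕ} (hs : s.card ≤ N) {t : ℝ}
    (ht : 0 < t) : (∑ b ∈ s, z b) ^ t ≤ (N : ℝ≥0∞) ^ t * ∑ b ∈ s, z b ^ t := by
  classical
  rcases s.eq_empty_or_nonempty with h | h
  · subst h
    simp [ENNReal.zero_rpow_of_pos ht]
  · obtain ⟨b, hb, hmax⟩ := s.exists_max_image z h
    have h1 : ∑ b ∈ s, z b ≤ N * z b := by
      calc ∑ b ∈ s, z b ≤ ∑ _c ∈ s, z b := Finset.sum_le_sum hmax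
        _ = s.card * z b := by simp
        _ ≤ N * z b := by gcongr
    calc (∑ b ∈ s, z b) ^ t ≤ (N * z b) ^ t := ENNReal.rpow_le_rpow h1 ht.le
      _ = (N : ℝ≥0∞) ^ t * z b ^ t := ENNReal.mul_rpow_of_nonneg _ _ ht.le
      _ ≤ _ := by
        gcongr
        exact Finset.single_le_sum (f := fun b => z b ^ t) (fun _ _ => bot_le) hb

/-! ### moments of sums of independent variables -/

/-- the moments of order `q > 1` of a sum, by induction -/
lemma sum_moment {Ω : Type*} [MeasurableSpace Ω] (μ : Measure Ω) [IsProbabilityMeasure μ]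
    (Z : ℕ → Ω → ℝ≥0∞) (hZ : ∀ b, Measurable (Z b)) (N L : ℕ) (hL : L ≤ N) (q : ℝ) (hq : 1 < q)
    (A B : ℝ≥0∞) (h1 : ∀ b < L, ∫⁻ x, Z b x ∂μ ≤ 1) (hA : ∀ b < L, ∫⁻ x, Z b x ^ q ∂μ ≤ A)
    (hB : ∀ b < L, ∫⁻ x, Z b x ^ (q - 1) ∂μ ≤ B)
    (hI : ∀ M < L, ∀ s t : ℝ, 0 < s → 0 < t →
      ∫⁻ x, (∑ b ∈ Finset.range M, Z b x) ^ s * Z M x ^ t ∂μ =
        (∫⁻ x, (∑ b ∈ Finset.range M, Z b x) ^ s ∂μ) * ∫⁻ x, Z M x ^ t ∂μ) :
    ∀ M ≤ L, ∫⁻ x, (∑ b ∈ Finset.range M, Z b x) ^ q ∂μ ≤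
      M * (A + 2 ^ q * ((N : ℝ≥0∞) ^ (q - 1) * (N * B) + N * B)) := by
  have hq0 : 0 < q := by linarith
  have hq1 : 0 < q - 1 := by linarith
  intro M
  induction M with
  | zero => intro _; simp [ENNReal.zero_rpow_of_pos hq0]
  | succ M ih =>
    intro hM
    have ih' := ih (by omega)
    have hML : M < L := by omega
    have hmS : Measurable fun x => ∑ b ∈ Finset.range M, Z b x :=
      Finset.measurable_sum _ fun b _ => hZ b
    have e1 : ∫⁻ x, (∑ b ∈ Finset.range M, Z b x) ^ (q - 1) * Z M x ∂μ ≤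
        (N : ℝ≥0∞) ^ (q - 1) * (N * B) := by
      have := hI M hML (q - 1) 1 hq1 one_pos
      simp only [ENNReal.rpow_one] at this
      rw [this]
      have b1 : ∫⁻ x, (∑ b ∈ Finset.range M, Z b x) ^ (q - 1) ∂μ ≤
          (N : ℝ≥0∞) ^ (q - 1) * (N * B) := by
        calc ∫⁻ x, (∑ b ∈ Finset.range M, Z b x) ^ (q - 1) ∂μ
            ≤ ∫⁻ x, (N : ℝ≥0∞) ^ (q - 1) * ∑ b ∈ Finset.range M, Z b x ^ (q - 1) ∂μ :=
              lintegral_mono fun x => sum_rpow_le _ _ (by simp; omega) hq1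
          _ = (N : ℝ≥0∞) ^ (q - 1) * ∑ b ∈ Finset.range M, ∫⁻ x, Z b x ^ (q - 1) ∂μ := by
              rw [lintegral_const_mul _ (Finset.measurable_sum _ fun b _ =>
                (hZ b).pow_const _), lintegral_finsetSum _ fun b _ => (hZ b).pow_const _]
          _ ≤ (N : ℝ≥0∞) ^ (q - 1) * ∑ _b ∈ Finset.range M, B := by
              gcongr with b hb
              exact hB b (by have := Finset.mem_range.1 hb; omega)
          _ ≤ (N : ℝ≥0∞) ^ (q - 1) * (N * B) := by
              rw [Finset.sum_const, Finset.card_range, nsmul_eq_mul]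
              gcongr
              omega
      calc _ ≤ (N : ℝ≥0∞) ^ (q - 1) * (N * B) * 1 := mul_le_mul' b1 (h1 M hML)
        _ = _ := mul_one _
    have e2 : ∫⁻ x, (∑ b ∈ Finset.range M, Z b x) * Z M x ^ (q - 1) ∂μ ≤ N * B := by
      have := hI M hML 1 (q - 1) one_pos hq1
      simp only [ENNReal.rpow_one] at this
      rw [this]
      have b1 : ∫⁻ x, (∑ b ∈ Finset.range M, Z b x) ∂μ ≤ N := by
        rw [lintegral_finsetSum _ fun b _ => hZ b]
        calc ∑ b ∈ Finset.range M, ∫⁻ x, Z b x ∂μ ≤ ∑ _b ∈ Finset.range M, (1 : ℝ≥0∞) := by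
              gcongr with b hb
              exact h1 b (by have := Finset.mem_range.1 hb; omega)
          _ = (M : ℝ≥0∞) := by simp
          _ ≤ N := by gcongr; omega
      exact mul_le_mul' b1 (hB M hML)
    calc ∫⁻ x, (∑ b ∈ Finset.range (M + 1), Z b x) ^ q ∂μ
        ≤ ∫⁻ x, ((∑ b ∈ Finset.range M, Z b x) ^ q + Z M x ^ q + 2 ^ q *
          ((∑ b ∈ Finset.range M, Z b x) ^ (q - 1) * Z M x +
            (∑ b ∈ Finset.range M, Z b x) * Z M x ^ (q - 1))) ∂μ := by
          refine lintegral_mono fun x => ?_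
          rw [Finset.sum_range_succ]
          exact pow_enn hq _ _
      _ = ∫⁻ x, (∑ b ∈ Finset.range M, Z b x) ^ q ∂μ + ∫⁻ x, Z M x ^ q ∂μ + 2 ^ q *
          (∫⁻ x, (∑ b ∈ Finset.range M, Z b x) ^ (q - 1) * Z M x ∂μ +
            ∫⁻ x, (∑ b ∈ Finset.range M, Z b x) * Z M x ^ (q - 1) ∂μ) := by
          have g1 : Measurable fun x => (∑ b ∈ Finset.range M, Z b x) ^ q := hmS.pow_const _
          have g2 : Measurable fun x => (∑ b ∈ Finset.range M, Z b x) ^ q + Z M x ^ q :=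
            g1.add ((hZ M).pow_const _)
          have g3 : Measurable fun x => (∑ b ∈ Finset.range M, Z b x) ^ (q - 1) * Z M x :=
            (hmS.pow_const _).mul (hZ M)
          have g4 : Measurable fun x => (∑ b ∈ Finset.range M, Z b x) ^ (q - 1) * Z M x +
              (∑ b ∈ Finset.range M, Z b x) * Z M x ^ (q - 1) :=
            g3.add (hmS.mul ((hZ M).pow_const _))
          rw [lintegral_add_left g2, lintegral_add_left g1, lintegral_const_mul _ g4,
            lintegral_add_left g3]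
      _ ≤ M * (A + 2 ^ q * ((N : ℝ≥0∞) ^ (q - 1) * (N * B) + N * B)) + A +
          2 ^ q * ((N : ℝ≥0∞) ^ (q - 1) * (N * B) + N * B) := by
          gcongr
          exact hA M hML
      _ = _ := by push_cast; ring

lemma sum_parity (f : ℕ → ℝ≥0∞) (N : ℕ) : ∑ b ∈ Finset.range N, f b =
    ∑ b ∈ Finset.range ((N + 1) / 2), f (2 * b) + ∑ b ∈ Finset.range (N / 2), f (2 * b + 1) := by
  induction N with
  | zero => simp
  | succ N ih =>
    rw [Finset.sum_range_succ, ih]
    rcases Nat.even_or_odd' N with ⟨c, hc | hc⟩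
    · have h1 : (N + 1 + 1) / 2 = c + 1 := by omega
      have h2 : (N + 1) / 2 = c := by omega
      have h3 : N / 2 = c := by omega
      rw [h1, h2, h3, Finset.sum_range_succ, hc]
      ring
    · have h1 : (N + 1 + 1) / 2 = c + 1 := by omega
      have h2 : (N + 1) / 2 = c + 1 := by omega
      have h3 : N / 2 = c := by omega
      rw [h1, h2, h3, Finset.sum_range_succ (fun b => f (2 * b + 1)), hc]
      ring

lemma sum_blocks {α : Type*} [AddCommMonoid α] (f : ℕ → α) (n N : ℕ) :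
    ∑ j ∈ Finset.range (N * n), f j =
      ∑ b ∈ Finset.range N, ∑ i ∈ Finset.range n, f (b * n + i) := by
  induction N with
  | zero => simp
  | succ N ih => rw [Nat.succ_mul, Finset.sum_range_add, ih, Finset.sum_range_succ]

/-! ### the Gaussian measures -/

open scoped MatrixOrder Matrix.Norms.L2Operator in
lemma mg_zero (n : ℕ) : multivariateGaussian (0 : EuclideanSpace ℝ (Fin n))
    (0 : Matrix (Fin n) (Fin n) ℝ) = Measure.dirac 0 := by
  have h : (fun x : EuclideanSpace ℝ (Fin n) => (0 : EuclideanSpace ℝ (Fin n)) +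
      Matrix.toEuclideanCLM (𝕜 := ℝ) (CFC.sqrt (0 : Matrix (Fin n) (Fin n) ℝ)) x) =
      fun _ => 0 := by
    ext x
    simp [CFC.sqrt_zero]
  rw [multivariateGaussian, h, Measure.map_const]
  simp

lemma gm_zero (n : ℕ) (p : Fin n → ℝ) (q : ℝ) :
    gm (0 : Matrix (Fin n) (Fin n) ℝ) p q = ENNReal.ofReal ((∑ i, p i) ^ q) := by
  rw [gm, mg_zero, lintegral_dirac]
  simp

lemma kap_nonneg (hL : St_KLOG) {m : ℝ} (hm : 0 ≤ m) (n j : ℕ) : 0 ≤ kap m n j := by
  rw [hL.2.2.2.2]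
  exact mul_nonneg hm (hL.2.1 n j)

lemma kap_zero (hL : St_KLOG) (m : ℝ) {n j : ℕ} (h : n ≤ j) : kap m n j = 0 := by
  rw [hL.2.2.2.2, hL.1 n j h, mul_zero]

lemma aa_le_one (hK : St_KAH) (hL : St_KLOG) (hP : St_KPSD) {m : ℝ} (hm : 0 ≤ m) {n : ℕ}
    (hn : 1 ≤ n) {s : ℝ} (hs : 0 ≤ s) (hs1 : s ≤ 1) : aa m n s ≤ 1 := by
  have hn0 : (0 : ℝ) < n := by exact_mod_cast hn
  have h := (hK n 0 (Kap m n n) Matrix.PosSemidef.zero (hP m n n hm) (fun _ => 1 / (n : ℝ))
    (fun _ => by positivity) ⟨⟨0, hn⟩, by positivity⟩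
    (fun i j _ _ => kap_nonneg hL hm n _) s).2 hs hs1
  rw [gm_zero] at h
  have h2 : ∑ _i : Fin n, 1 / (n : ℝ) = 1 := by
    simp
    field_simp
  rw [h2, Real.one_rpow, ENNReal.ofReal_one] at h
  exact h

/-- the marginal law -/
lemma marg (hI : St_IND) {n k : ℕ} {C : Matrix (Fin n) (Fin n) ℝ} (hC : C.PosSemidef)
    (f : Fin k → Fin n) (hf : Function.Injective f) (F : (Fin k → ℝ) → ℝ≥0∞) (hF : Measurable F) :
    ∫⁻ x, F (fun i => x (f i)) ∂(multivariateGaussian 0 C) =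
      ∫⁻ x, F (fun i => x i) ∂(multivariateGaussian 0 (C.submatrix f f)) := by
  have h := hI n k 0 C hC f (fun i => i.elim0) hf (fun i => i.elim0) (fun _ j => j.elim0) F
    (fun _ => 1) hF measurable_const
  simpa using h

lemma indep (hI : St_IND) {n k l : ℕ} {C : Matrix (Fin n) (Fin n) ℝ} (hC : C.PosSemidef)
    (f : Fin k → Fin n) (hf : Function.Injective f) (g : Fin l → Fin n)
    (hg : Function.Injective g) (h0 : ∀ i j, C (f i) (g j) = 0)
    (F : (Fin k → ℝ) → ℝ≥0∞) (hF : Measurable F) (G : (Fin l → ℝ) → ℝ≥0∞) (hG : Measurable G) :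
    ∫⁻ x, F (fun i => x (f i)) * G (fun j => x (g j)) ∂(multivariateGaussian 0 C) =
      (∫⁻ x, F (fun i => x (f i)) ∂(multivariateGaussian 0 C)) *
        ∫⁻ x, G (fun j => x (g j)) ∂(multivariateGaussian 0 C) := by
  rw [hI n k l C hC f g hf hg h0 F G hF hG, marg hI hC f hf F hF, marg hI hC g hg G hG]

/-! ### the blocks -/

/-- extension of a finite sequence by zero -/
def ext {L : ℕ} (x : Fin L → ℝ) (j : ℕ) : ℝ := if h : j < L then x ⟨j, h⟩ else 0

lemma ext_apply {L : ℕ} (x : Fin L → ℝ) {j : ℕ} (h : j < L) : ext x j = x ⟨j, h⟩ := by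
  simp [ext, h]

lemma measurable_ext {L : ℕ} (j : ℕ) : Measurable fun x : Fin L → ℝ => ext x j := by
  by_cases h : j < L
  · simp only [ext, h, dite_true]
    exact measurable_pi_apply _
  · simp only [ext, h, dite_false]
    exact measurable_const

/-- the mass of a block -/
def zb (n : ℕ) (K0 : ℝ) (b : ℕ) (y : ℕ → ℝ) : ℝ≥0∞ :=
  ENNReal.ofReal (∑ i ∈ Finset.range n, 1 / (n : ℝ) * Real.exp (y (b * n + i) - K0 / 2))

lemma zb_congr {n : ℕ} {K0 : ℝ} {b : ℕ} {y y' : ℕ → ℝ}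
    (h : ∀ i < n, y (b * n + i) = y' (b * n + i)) : zb n K0 b y = zb n K0 b y' := by
  unfold zb
  congr 1
  exact Finset.sum_congr rfl fun i hi => by rw [h i (Finset.mem_range.1 hi)]

lemma measurable_zb {L : ℕ} (n : ℕ) (K0 : ℝ) (b : ℕ) :
    Measurable fun x : Fin L → ℝ => zb n K0 b (ext x) := by
  unfold zb
  refine ENNReal.measurable_ofReal.comp (Finset.measurable_sum _ fun i _ => ?_)
  exact (Real.measurable_exp.comp ((measurable_ext _).sub_const _)).const_mul _

/-- the indices of a block -/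
def blk {n N : ℕ} (b : ℕ) (hb : b < N) (i : Fin n) : Fin (N * n) :=
  ⟨b * n + i, by
    have := i.2
    calc b * n + i < b * n + n := by omega
      _ = (b + 1) * n := by ring
      _ ≤ N * n := Nat.mul_le_mul_right _ hb⟩

lemma blk_inj {n N : ℕ} (b : ℕ) (hb : b < N) :
    Function.Injective (blk (n := n) b hb) := by
  intro i j h
  have := congrArg Fin.val h
  simp only [blk] at this
  exact Fin.ext (by omega)

/-- the mass of a block as a function of the coordinates of the block -/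
def zf (n : ℕ) (K0 : ℝ) (y : Fin n → ℝ) : ℝ≥0∞ :=
  ENNReal.ofReal (∑ i : Fin n, 1 / (n : ℝ) * Real.exp (y i - K0 / 2))

lemma measurable_zf (n : ℕ) (K0 : ℝ) : Measurable (zf n K0) := by
  unfold zf
  refine ENNReal.measurable_ofReal.comp (Finset.measurable_sum _ fun i _ => ?_)
  exact (Real.measurable_exp.comp ((measurable_pi_apply _).sub_const _)).const_mul _

lemma zb_blk {n N : ℕ} (K0 : ℝ) (b : ℕ) (hb : b < N) (x : Fin (N * n) → ℝ) :
    zb n K0 b (ext x) = zf n K0 fun i => x (blk b hb i) := by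
  unfold zb zf
  congr 1
  rw [Finset.sum_range fun i => 1 / (n : ℝ) * Real.exp (ext x (b * n + i) - K0 / 2)]
  refine Finset.sum_congr rfl fun i _ => ?_
  have h : ext x (b * n + i) = x (blk b hb i) := ext_apply x (blk b hb i).2
  rw [h]

lemma Kap_blk (m : ℝ) (n N b : ℕ) (hb : b < N) :
    (Kap m n (N * n)).submatrix (blk b hb) (blk b hb) = Kap m n n := by
  ext i j
  simp [Kap, blk, Nat.dist_add_add_left]

/-- the moments of a block -/
lemma block_moment (hI : St_IND) (hP : St_KPSD) {m : ℝ} (hm : 0 ≤ m) (n N b : ℕ) (hb : b < N)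
    {s : ℝ} (hs : 0 ≤ s) :
    ∫⁻ x : EuclideanSpace ℝ (Fin (N * n)), zb n (kap m n 0) b (ext fun i => x i) ^ s
      ∂(multivariateGaussian 0 (Kap m n (N * n))) = aa m n s := by
  have h := marg hI (hP m n (N * n) hm) (blk b hb) (blk_inj b hb)
    (fun y => zf n (kap m n 0) y ^ s) ((measurable_zf n _).pow_const _)
  rw [Kap_blk] at h
  simp only [zb_blk _ _ hb]
  rw [h, aa, gm]
  refine lintegral_congr fun x => ?_
  unfold zf
  rw [ENNReal.ofReal_rpow_of_nonneg (Finset.sum_nonneg fun i _ => by positivity) hs]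
  simp [Kap, Nat.dist_self]

lemma block_indep (hI : St_IND) (hP : St_KPSD) (hL : St_KLOG) {m : ℝ} (hm : 0 ≤ m)
    (n N e M : ℕ) (hM : 2 * M + e < N) {s t : ℝ} (hs : 0 < s) :
    ∫⁻ x : EuclideanSpace ℝ (Fin (N * n)),
        (∑ b ∈ Finset.range M, zb n (kap m n 0) (2 * b + e) (ext fun i => x i)) ^ s *
        zb n (kap m n 0) (2 * M + e) (ext fun i => x i) ^ t
        ∂(multivariateGaussian 0 (Kap m n (N * n))) =
      (∫⁻ x : EuclideanSpace ℝ (Fin (N * n)),
        (∑ b ∈ Finset.range M, zb n (kap m n 0) (2 * b + e) (ext fun i => x i)) ^ s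
        ∂(multivariateGaussian 0 (Kap m n (N * n)))) *
      ∫⁻ x : EuclideanSpace ℝ (Fin (N * n)),
        zb n (kap m n 0) (2 * M + e) (ext fun i => x i) ^ t
        ∂(multivariateGaussian 0 (Kap m n (N * n))) := by
  cases M with
  | zero => simp [ENNReal.zero_rpow_of_pos hs]
  | succ M =>
    have hle : (2 * M + e + 1) * n ≤ N * n := Nat.mul_le_mul_right _ (by omega)
    have h := indep hI (hP m n (N * n) hm) (Fin.castLE hle) (Fin.castLE_injective hle)
      (blk (2 * (M + 1) + e) hM) (blk_inj _ hM) (fun i j => by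
        have hi := i.2
        have hj := j.2
        have e1 : (2 * (M + 1) + e) * n = (2 * M + e + 1) * n + n := by ring
        have e2 : Kap m n (N * n) (Fin.castLE hle i) (blk (2 * (M + 1) + e) hM j) =
          kap m n (Nat.dist (i : ℕ) ((2 * (M + 1) + e) * n + j)) := rfl
        rw [e2]
        refine kap_zero hL m ?_
        rw [Nat.dist_eq_sub_of_le (by omega)]
        omega)
      (fun y => (∑ b ∈ Finset.range (M + 1), zb n (kap m n 0) (2 * b + e) (ext y)) ^ s)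
      ((Finset.measurable_sum _ fun b _ => measurable_zb n _ _).pow_const _)
      (fun y => zf n (kap m n 0) y ^ t) ((measurable_zf n _).pow_const _)
    have e3 : ∀ x : Fin (N * n) → ℝ,
        ∑ b ∈ Finset.range (M + 1), zb n (kap m n 0) (2 * b + e)
          (ext fun i => x (Fin.castLE hle i)) =
        ∑ b ∈ Finset.range (M + 1), zb n (kap m n 0) (2 * b + e) (ext x) := by
      intro x
      refine Finset.sum_congr rfl fun b hb => zb_congr fun i hi => ?_
      have hb' := Finset.mem_range.1 hb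
      have hlt : (2 * b + e) * n + i < (2 * M + e + 1) * n := by
        calc (2 * b + e) * n + i < (2 * b + e) * n + n := by omega
          _ = (2 * b + e + 1) * n := by ring
          _ ≤ _ := Nat.mul_le_mul_right _ (by omega)
      rw [ext_apply _ hlt, ext_apply _ (hlt.trans_le hle)]
      rfl
    simp only [zb_blk (kap m n 0) (2 * (M + 1) + e) hM]
    simp only [e3] at h
    exact h

lemma parity_moment (hI : St_IND) (hP : St_KPSD) (hL : St_KLOG) (hK : St_KAH) {m : ℝ}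
    (hm : 0 ≤ m) {n : ℕ} (hn : 1 ≤ n) (N e L : ℕ) (hLN : L ≤ N) (he : ∀ b < L, 2 * b + e < N)
    {q : ℝ} (hq : 1 < q) {B : ℝ≥0∞} (hB : aa m n (q - 1) ≤ B) :
    ∫⁻ x : EuclideanSpace ℝ (Fin (N * n)),
        (∑ b ∈ Finset.range L, zb n (kap m n 0) (2 * b + e) (ext fun i => x i)) ^ q
        ∂(multivariateGaussian 0 (Kap m n (N * n))) ≤
      N * (aa m n q + 2 ^ q * ((N : ℝ≥0∞) ^ (q - 1) * (N * B) + N * B)) := by
  have hq1 : 0 < q - 1 := by linarith
  have h := sum_moment (multivariateGaussian (0 : EuclideanSpace ℝ (Fin (N * n)))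
      (Kap m n (N * n)))
    (fun b x => zb n (kap m n 0) (2 * b + e) (ext fun i => x i))
    (fun b => (measurable_zb n _ _).comp (by fun_prop)) N L hLN q hq (aa m n q) B
    (fun b hb => by
      have h1 := block_moment hI hP hm n N (2 * b + e) (he b hb) zero_le_one
      simp only [ENNReal.rpow_one] at h1
      rw [h1]
      exact aa_le_one hK hL hP hm hn zero_le_one le_rfl)
    (fun b hb => (block_moment hI hP hm n N (2 * b + e) (he b hb) (by linarith)).le)
    (fun b hb => by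
      rw [block_moment hI hP hm n N (2 * b + e) (he b hb) hq1.le]
      exact hB)
    (fun M hM s t hs ht => block_indep hI hP hL hm n N e M (he M hM) hs) L le_rfl
  refine h.trans ?_
  gcongr

lemma total_moment (hI : St_IND) (hP : St_KPSD) (hL : St_KLOG) (hK : St_KAH) {m : ℝ}
    (hm : 0 ≤ m) {n : ℕ} (hn : 1 ≤ n) (N : ℕ)
    {q : ℝ} (hq : 1 < q) {B : ℝ≥0∞} (hB : aa m n (q - 1) ≤ B) :
    ∫⁻ x : EuclideanSpace ℝ (Fin (N * n)),
        (∑ b ∈ Finset.range N, zb n (kap m n 0) b (ext fun i => x i)) ^ q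
        ∂(multivariateGaussian 0 (Kap m n (N * n))) ≤
      2 ^ (q - 1) * (2 * (N * (aa m n q + 2 ^ q *
        ((N : ℝ≥0∞) ^ (q - 1) * (N * B) + N * B)))) := by
  have h0 := parity_moment hI hP hL hK hm hn N 0 ((N + 1) / 2) (by omega)
    (fun b hb => by omega) hq hB
  have h1 := parity_moment hI hP hL hK hm hn N 1 (N / 2) (by omega)
    (fun b hb => by omega) hq hB
  simp only [add_zero] at h0
  have hm0 : ∀ L e : ℕ, Measurable fun x : EuclideanSpace ℝ (Fin (N * n)) =>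
      (∑ b ∈ Finset.range L, zb n (kap m n 0) (2 * b + e) (ext fun i => x i)) ^ q :=
    fun L e => (Finset.measurable_sum _ fun b _ =>
      (measurable_zb n _ _).comp (by fun_prop)).pow_const _
  have hm1 := hm0 ((N + 1) / 2) 0
  simp only [add_zero] at hm1
  calc _ ≤ ∫⁻ x : EuclideanSpace ℝ (Fin (N * n)), 2 ^ (q - 1) *
        ((∑ b ∈ Finset.range ((N + 1) / 2), zb n (kap m n 0) (2 * b) (ext fun i => x i)) ^ q +
        (∑ b ∈ Finset.range (N / 2), zb n (kap m n 0) (2 * b + 1) (ext fun i => x i)) ^ q)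
        ∂(multivariateGaussian 0 (Kap m n (N * n))) := by
        refine lintegral_mono fun x => ?_
        rw [sum_parity]
        exact ENNReal.rpow_add_le_mul_rpow_add_rpow _ _ hq.le
    _ = 2 ^ (q - 1) * (∫⁻ x : EuclideanSpace ℝ (Fin (N * n)),
          (∑ b ∈ Finset.range ((N + 1) / 2), zb n (kap m n 0) (2 * b) (ext fun i => x i)) ^ q
          ∂(multivariateGaussian 0 (Kap m n (N * n))) +
        ∫⁻ x : EuclideanSpace ℝ (Fin (N * n)),
          (∑ b ∈ Finset.range (N / 2), zb n (kap m n 0) (2 * b + 1) (ext fun i => x i)) ^ q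
          ∂(multivariateGaussian 0 (Kap m n (N * n)))) := by
        have hm2 : Measurable fun x : EuclideanSpace ℝ (Fin (N * n)) =>
          (∑ b ∈ Finset.range ((N + 1) / 2), zb n (kap m n 0) (2 * b) (ext fun i => x i)) ^ q +
          (∑ b ∈ Finset.range (N / 2), zb n (kap m n 0) (2 * b + 1) (ext fun i => x i)) ^ q :=
          hm1.add (hm0 _ _)
        rw [lintegral_const_mul _ hm2, lintegral_add_left hm1]
    _ ≤ _ := by
        rw [two_mul (_ * _)]
        gcongr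

/-- rewriting the moment of the whole sum in terms of the blocks -/
lemma gm_blocks {m : ℝ} {n N : ℕ} (hn : 1 ≤ n) (hN : 1 ≤ N) {q : ℝ} (hq : 0 ≤ q) :
    gm (Kap m n (N * n)) (fun _ => 1 / ((N * n : ℕ) : ℝ)) q =
      ENNReal.ofReal (1 / N) ^ q * ∫⁻ x : EuclideanSpace ℝ (Fin (N * n)),
        (∑ b ∈ Finset.range N, zb n (kap m n 0) b (ext fun i => x i)) ^ q
        ∂(multivariateGaussian 0 (Kap m n (N * n))) := by
  have hn0 : (0 : ℝ) < n := by exact_mod_cast hn
  have hN0 : (0 : ℝ) < N := by exact_mod_cast hN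
  rw [gm, ← lintegral_const_mul]
  · refine lintegral_congr fun x => ?_
    rw [← ENNReal.mul_rpow_of_nonneg _ _ hq, ← ENNReal.ofReal_rpow_of_nonneg
      (Finset.sum_nonneg fun i _ => by positivity) hq]
    congr 1
    have e1 : ∑ i : Fin (N * n), 1 / ((N * n : ℕ) : ℝ) *
          Real.exp (x i - Kap m n (N * n) i i / 2) =
        ∑ j ∈ Finset.range (N * n), 1 / ((N * n : ℕ) : ℝ) *
          Real.exp (ext (fun i => x i) j - kap m n 0 / 2) := by
      rw [Finset.sum_range]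
      refine Finset.sum_congr rfl fun i _ => ?_
      rw [ext_apply _ i.2]
      simp [Kap, Nat.dist_self]
    rw [e1, sum_blocks]
    have e2 : ∀ b : ℕ, ∑ i ∈ Finset.range n, 1 / ((N * n : ℕ) : ℝ) *
          Real.exp (ext (fun i => x i) (b * n + i) - kap m n 0 / 2) =
        1 / N * ∑ i ∈ Finset.range n, 1 / (n : ℝ) *
          Real.exp (ext (fun i => x i) (b * n + i) - kap m n 0 / 2) := by
      intro b
      rw [Finset.mul_sum]
      refine Finset.sum_congr rfl fun i _ => ?_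
      push_cast
      field_simp
    rw [Finset.sum_congr rfl fun b _ => e2 b, ← Finset.mul_sum]
    rw [ENNReal.ofReal_mul (by positivity), ENNReal.ofReal_sum_of_nonneg
      (fun b _ => Finset.sum_nonneg fun i _ => by positivity)]
    rfl
  · exact (Finset.measurable_sum _ fun b _ =>
      (measurable_zb n _ _).comp (by fun_prop)).pow_const _

lemma psd_add_const {N : ℕ} {C : Matrix (Fin N) (Fin N) ℝ} (hC : C.PosSemidef) {b : ℝ}
    (hb : 0 ≤ b) : Matrix.PosSemidef (fun i j => C i j + b : Matrix (Fin N) (Fin N) ℝ) := by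
  have h1 : (fun i j => C i j + b : Matrix (Fin N) (Fin N) ℝ) =
      C + b • Matrix.vecMulVec (fun _ => (1 : ℝ)) (star fun _ => (1 : ℝ)) := by
    ext i j
    show C i j + b = C i j + b • Matrix.vecMulVec (fun _ => (1 : ℝ)) (star fun _ => (1 : ℝ)) i j
    simp [Matrix.vecMulVec_apply]
  rw [h1]
  exact hC.add ((Matrix.posSemidef_vecMulVec_self_star _).smul hb)

/-- the scaling step -/
lemma scale (hK : St_KAH) (hA : St_ADD) (hP : St_KPSD) (hL : St_KLOG) {m : ℝ} (hm : 0 ≤ m)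
    {n N : ℕ} (hn : 1 ≤ n) (hN : 1 ≤ N) {q : ℝ} (hq : 1 ≤ q) :
    aa m (N * n) q ≤ ENNReal.ofReal (Real.exp (m * Real.log N * (q * (q - 1)) / 2)) *
      gm (Kap m n (N * n)) (fun _ => 1 / ((N * n : ℕ) : ℝ)) q := by
  have hn0 : (0 : ℝ) < n := by exact_mod_cast hn
  have hN0 : (0 : ℝ) < N := by exact_mod_cast hN
  have hNn : 0 < N * n := Nat.mul_pos hN hn
  have hNn0 : (0 : ℝ) < ((N * n : ℕ) : ℝ) := by exact_mod_cast hNn
  have hlog : 0 ≤ m * Real.log N := mul_nonneg hm (Real.log_nonneg (by exact_mod_cast hN))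
  rw [← hA _ _ (hP m n (N * n) hm) _ hlog _ (fun _ => by positivity)]
  refine (hK (N * n) _ _ (hP m (N * n) (N * n) hm)
    (psd_add_const (hP m n (N * n) hm) hlog) _ (fun _ => by positivity)
    ⟨⟨0, hNn⟩, by positivity⟩ (fun i j _ _ => ?_) q).1 (Or.inl hq)
  have h4 := hL.2.2.2.1 n (N * n) (Nat.dist (i : ℕ) (j : ℕ)) hn (Nat.le_mul_of_pos_left n hN)
  have h5 : ((N * n : ℕ) : ℝ) / n = N := by push_cast; field_simp
  rw [h5] at h4
  simp only [Kap]
  rw [hL.2.2.2.2 m (N * n), hL.2.2.2.2 m n]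
  nlinarith

/-- the real contraction factor -/
def rho (m q : ℝ) (N : ℕ) : ℝ :=
  Real.exp (m * Real.log N * (q * (q - 1)) / 2) * ((1 / N) ^ q * (2 ^ (q - 1) * (2 * N)))

/-- the recursion -/
lemma recur (hK : St_KAH) (hA : St_ADD) (hI : St_IND) (hP : St_KPSD) (hL : St_KLOG) {m : ℝ}
    (hm : 0 ≤ m) {n N : ℕ} (hn : 1 ≤ n) (hN : 1 ≤ N) {q : ℝ} (hq : 1 < q) {B : ℝ≥0∞}
    (hB : aa m n (q - 1) ≤ B) :
    aa m (N * n) q ≤ ENNReal.ofReal (rho m q N) * aa m n q + ENNReal.ofReal (rho m q N) *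
      (2 ^ q * ((N : ℝ≥0∞) ^ (q - 1) * (N * B) + N * B)) := by
  have hq0 : 0 < q := by linarith
  have hN0 : (0 : ℝ) < N := by exact_mod_cast hN
  have h1 := scale hK hA hP hL hm hn hN hq.le
  rw [gm_blocks hn hN hq0.le] at h1
  refine h1.trans ?_
  have h2 := total_moment hI hP hL hK hm hn N hq hB
  have e1 : ENNReal.ofReal (rho m q N) =
      ENNReal.ofReal (Real.exp (m * Real.log N * (q * (q - 1)) / 2)) *
        (ENNReal.ofReal (1 / N) ^ q * (2 ^ (q - 1) * (2 * N))) := by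
    unfold rho
    rw [ENNReal.ofReal_mul (by positivity), ENNReal.ofReal_mul (by positivity),
      ENNReal.ofReal_mul (by positivity), ENNReal.ofReal_mul (by positivity),
      ENNReal.ofReal_rpow_of_nonneg (by positivity) hq0.le,
      ← ENNReal.ofReal_rpow_of_pos (by norm_num : (0 : ℝ) < 2)]
    simp
  rw [e1, ← mul_add]
  calc _ ≤ ENNReal.ofReal (Real.exp (m * Real.log N * (q * (q - 1)) / 2)) *
        (ENNReal.ofReal (1 / N) ^ q * (2 ^ (q - 1) * (2 * (N * (aa m n q + 2 ^ q *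
        ((N : ℝ≥0∞) ^ (q - 1) * (N * B) + N * B)))))) := by gcongr
    _ = _ := by ring

lemma rho_tendsto {m q : ℝ} (hq : 1 < q) (hmq : m * q < 2) :
    Tendsto (fun l : ℕ => rho m q (3 ^ l)) atTop (𝓝 0) := by
  have hth : 0 < (q - 1) * (1 - m * q / 2) := mul_pos (by linarith) (by linarith)
  have h1 : ∀ N : ℕ, 1 ≤ N → rho m q N = 2 ^ q * (N : ℝ) ^ (-((q - 1) * (1 - m * q / 2))) := by
    intro N hN
    have hN0 : (0 : ℝ) < N := by exact_mod_cast hN
    unfold rho
    have e1 : Real.exp (m * Real.log N * (q * (q - 1)) / 2) =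
        (N : ℝ) ^ (m * (q * (q - 1)) / 2) := by
      rw [Real.rpow_def_of_pos hN0]; congr 1; ring
    have e2 : (1 / (N : ℝ)) ^ q = (N : ℝ) ^ (-q) := by
      rw [one_div, Real.inv_rpow hN0.le, Real.rpow_neg hN0.le]
    have e3 : (2 : ℝ) ^ (q - 1) * (2 * N) = 2 ^ q * (N : ℝ) ^ (1 : ℝ) := by
      rw [Real.rpow_one]
      have : (2 : ℝ) ^ q = 2 ^ (q - 1) * 2 := by
        rw [← Real.rpow_add_one (by norm_num) (q - 1)]; ring_nf
      rw [this]; ring
    rw [e1, e2, e3]
    calc _ = 2 ^ q * ((N : ℝ) ^ (m * (q * (q - 1)) / 2) * (N : ℝ) ^ (-q) * (N : ℝ) ^ (1 : ℝ)) := by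
          ring
      _ = _ := by
          rw [← Real.rpow_add hN0, ← Real.rpow_add hN0]
          congr 2
          ring
  have h2 : Tendsto (fun l : ℕ => ((3 ^ l : ℕ) : ℝ)) atTop atTop := by
    have := tendsto_pow_atTop_atTop_of_one_lt (r := (3 : ℝ)) (by norm_num)
    simpa using this
  have h3 := ((tendsto_rpow_neg_atTop hth).comp h2).const_mul (2 ^ q)
  rw [mul_zero] at h3
  refine h3.congr fun l => ?_
  rw [h1 _ (Nat.one_le_pow _ _ (by norm_num))]
  rfl

lemma aa_one (hA : St_ADD) (hL : St_KLOG) {m : ℝ} (hm : 0 ≤ m) (q : ℝ) : aa m 1 q < ∞ := by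
  have h := hA 1 0 Matrix.PosSemidef.zero (kap m 1 0) (kap_nonneg hL hm 1 0)
    (fun _ => 1 / ((1 : ℕ) : ℝ)) (fun _ => by positivity) q
  have e : (fun i j : Fin 1 => (0 : Matrix (Fin 1) (Fin 1) ℝ) i j + kap m 1 0) = Kap m 1 1 := by
    ext i j
    have hi : i = 0 := Subsingleton.elim _ _
    have hj : j = 0 := Subsingleton.elim _ _
    subst hi
    subst hj
    simp [Kap]
  rw [e, gm_zero] at h
  unfold aa
  rw [h]
  exact ENNReal.mul_lt_top ENNReal.ofReal_lt_top ENNReal.ofReal_lt_top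

lemma bounded_of_recur (u : ℕ → ℝ≥0∞) (D : ℝ≥0∞) (hD : D < ∞) (l : ℕ) (hl : 1 ≤ l)
    (hu : ∀ k, u k < ∞) (h : ∀ k, u (l + k) ≤ 2⁻¹ * u k + D) :
    ∃ B : ℝ≥0∞, B < ∞ ∧ ∀ k, u k ≤ B := by
  refine ⟨2 * D + ∑ r ∈ Finset.range l, u r, ?_, fun k => ?_⟩
  · refine ENNReal.add_lt_top.2 ⟨ENNReal.mul_lt_top (by simp) hD, ?_⟩
    exact ENNReal.sum_lt_top.2 fun r _ => hu r
  · induction k using Nat.strong_induction_on with
    | _ k ih =>
      rcases lt_or_ge k l with hk | hk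
      · exact (Finset.single_le_sum (f := u) (fun _ _ => bot_le) (Finset.mem_range.2 hk)).trans
          le_add_self
      · obtain ⟨j, rfl⟩ := Nat.exists_eq_add_of_le hk
        have e : (2 : ℝ≥0∞)⁻¹ * 2 = 1 := ENNReal.inv_mul_cancel (by simp) (by simp)
        calc u (l + j) ≤ 2⁻¹ * u j + D := h j
          _ ≤ 2⁻¹ * (2 * D + ∑ r ∈ Finset.range l, u r) + D := by
              gcongr
              exact ih j (by omega)
          _ = D + 2⁻¹ * (∑ r ∈ Finset.range l, u r) + D := by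
              rw [mul_add, ← mul_assoc, e, one_mul]
          _ ≤ D + 1 * (∑ r ∈ Finset.range l, u r) + D := by
              gcongr
              simp
          _ = _ := by ring

theorem POS_holds (hK : St_KAH) (hA : St_ADD) (hI : St_IND) (hP : St_KPSD) (hL : St_KLOG) :
    St_POS := by
  intro m q hm0 hq hmq
  have hm : 0 ≤ m := hm0.le
  have key : ∀ j : ℕ, ∀ q : ℝ, 1 < q → q ≤ j + 1 → m * q < 2 →
      ∃ B : ℝ≥0∞, B < ∞ ∧ ∀ k : ℕ, aa m (3 ^ k) q ≤ B := by
    intro j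
    induction j with
    | zero => intro q hq h1 _; exfalso; norm_num at h1; linarith
    | succ j ih =>
      intro q hq hqj hmq
      push_cast at hqj
      have h3 : ∀ k : ℕ, 1 ≤ 3 ^ k := fun k => Nat.one_le_pow _ _ (by norm_num)
      obtain ⟨B', hB'1, hB'2⟩ : ∃ B : ℝ≥0∞, B < ∞ ∧ ∀ k : ℕ, aa m (3 ^ k) (q - 1) ≤ B := by
        rcases le_or_gt (q - 1) 1 with h | h
        · exact ⟨1, by simp, fun k => aa_le_one hK hL hP hm (h3 k) (by linarith) h⟩
        · exact ih (q - 1) h (by linarith) (by nlinarith)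
      have hfin : ∀ N : ℕ, ENNReal.ofReal (rho m q N) *
          (2 ^ q * ((N : ℝ≥0∞) ^ (q - 1) * (N * B') + N * B')) < ∞ := by
        intro N
        have hN : (N : ℝ≥0∞) < ∞ := ENNReal.natCast_lt_top N
        have h2 : (2 : ℝ≥0∞) ^ q < ∞ := ENNReal.rpow_lt_top_of_nonneg (by linarith) (by simp)
        have hNq : (N : ℝ≥0∞) ^ (q - 1) < ∞ :=
          ENNReal.rpow_lt_top_of_nonneg (by linarith) hN.ne
        refine ENNReal.mul_lt_top ENNReal.ofReal_lt_top (ENNReal.mul_lt_top h2 ?_)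
        exact ENNReal.add_lt_top.2 ⟨ENNReal.mul_lt_top hNq (ENNReal.mul_lt_top hN hB'1),
          ENNReal.mul_lt_top hN hB'1⟩
      have hev := ((rho_tendsto hq hmq).eventually (gt_mem_nhds
        (by norm_num : (0 : ℝ) < 1 / 2))).and (eventually_ge_atTop 1)
      obtain ⟨l, hl, hl1⟩ := hev.exists
      have hl' : ENNReal.ofReal (rho m q (3 ^ l)) ≤ 2⁻¹ := by
        have := ENNReal.ofReal_le_ofReal hl.le
        rwa [one_div, ENNReal.ofReal_inv_of_pos (by norm_num), ENNReal.ofReal_ofNat] at this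
      refine bounded_of_recur (fun k => aa m (3 ^ k) q) _ (hfin (3 ^ l)) l hl1 (fun k => ?_)
        (fun k => ?_)
      · have h := recur hK hA hI hP hL hm (n := 1) (N := 3 ^ k) le_rfl (h3 k) hq
          (by simpa using hB'2 0)
        rw [mul_one] at h
        refine lt_of_le_of_lt h (ENNReal.add_lt_top.2 ⟨?_, hfin _⟩)
        exact ENNReal.mul_lt_top ENNReal.ofReal_lt_top (aa_one hA hL hm q)
      · have h := recur hK hA hI hP hL hm (n := 3 ^ k) (N := 3 ^ l) (h3 k) (h3 l) hq (hB'2 k)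
        show aa m (3 ^ (l + k)) q ≤ _
        rw [pow_add]
        refine h.trans ?_
        gcongr
  obtain ⟨j, hj⟩ := exists_nat_ge q
  exact key j q hq (by linarith) hmq

end

end Pool.Agent.L5helper72.CG
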